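import Pool.Agent.H28.PathDP

set_option autoImplicit false

namespace Pool.Agent.Results.MP_407208_co.Swap

open Pool.Agent.H28.PathDP

/-- adjacency in the king's graph -/
def King {n : ℕ} (c d : Fin n × Fin n) : Prop :=
  c ≠ d ∧ Nat.dist c.1 d.1 ≤ 1 ∧ Nat.dist c.2 d.2 ≤ 1

/-- the `k`-letter words of a board -/
def W {n : ℕ} (k : ℕ) (B : Fin n × Fin n ≃ Fin (n * n)) : Set (List (Fin (n * n))) :=
  {l | l.length = k ∧ l.Nodup ∧ l.IsChain (fun a b => King (B.symm a) (B.symm b))}

/-- `c` is a corner and `s` shares an edge with it -/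
def CornerSide {n : ℕ} (c s : Fin n × Fin n) : Prop :=
  (c.1.1 = 0 ∨ c.1.1 = n - 1) ∧ (c.2.1 = 0 ∨ c.2.1 = n - 1) ∧
    Nat.dist c.1 s.1 + Nat.dist c.2 s.2 = 1

instance kd {n : ℕ} (c d : Fin n × Fin n) : Decidable (King c d) := by
  unfold King; infer_instance

/-- king adjacency on numbers -/
def kg (a b : ℕ) : Bool :=
  a != b && decide (Nat.dist (a / 4) (b / 4) ≤ 1) && decide (Nat.dist (a % 4) (b % 4) ≤ 1)

/-- a transposition -/
def sw (x y a : ℕ) : ℕ := if a = x then y else if a = y then x else a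

/-- common adjacency, with a virtual start vertex -/
def cm (x y a b : ℕ) : Bool := a == 16 || (kg a b && kg (sw x y a) (sw x y b))

lemma link (B B' : Fin 4 × Fin 4 ≃ Fin (4 * 4)) (adj : ℕ → ℕ → Bool) (h0 : ∀ b, adj 16 b = true)
    (h : ∀ a b : Fin 16, adj a b = true ↔
      King (B.symm a) (B.symm b) ∧ King (B'.symm a) (B'.symm b)) :
    (W 12 B ∩ W 12 B').ncard = total adj 12 := by
  rw [total_eq _ _ (by norm_num), ← Set.ncard_coe_finset]
  congr 1
  ext l
  have h1 : (16 :: l.map Fin.val).IsChain (fun a b => adj a b) ↔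
      l.IsChain (fun a b => King (B.symm a) (B.symm b) ∧ King (B'.symm a) (B'.symm b)) := by
    rw [List.isChain_cons, List.isChain_map]
    simp only [h0, implies_true, true_and]
    exact List.IsChain.iff fun a b => h a b
  have h2 : l.IsChain (fun a b => King (B.symm a) (B.symm b) ∧ King (B'.symm a) (B'.symm b)) ↔
      l.IsChain (fun a b => King (B.symm a) (B.symm b)) ∧
        l.IsChain (fun a b => King (B'.symm a) (B'.symm b)) := by
    simp only [List.isChain_iff_getElem, forall_and]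
  refine Iff.trans ?_ (mem_Q adj 12 16 0 l).symm
  rw [h1, h2]
  simp only [W, Set.mem_inter_iff, Set.mem_setOf_eq, Nat.zero_testBit, implies_true, true_and]
  tauto

lemma key : total (cm 0 1) 12 < total (cm 1 5) 12 := by decide +kernel

theorem result : ¬ ∀ n ≥ 4, ∀ k ≥ 2, ∀ (B : Fin n × Fin n ≃ Fin (n * n)) (c s : Fin n × Fin n),
    CornerSide c s →
      IsGreatest {m | ∃ B' : Fin n × Fin n ≃ Fin (n * n),
          ¬ (∀ j ≥ 2, W j B' = W j B) ∧ m = (W k B ∩ W k B').ncard}
        (W k B ∩ W k ((Equiv.swap c s).trans B)).ncard := by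
  intro H
  have h := (H 4 le_rfl 12 (by norm_num) finProdFinEquiv (0, 0) (0, 1) (by
    unfold CornerSide; decide)).2
    ⟨(Equiv.swap (0, 1) (1, 1)).trans finProdFinEquiv, fun h => ?_, rfl⟩
  · rw [link _ _ (cm 1 5) (fun _ => rfl) (by decide +kernel),
      link _ _ (cm 0 1) (fun _ => rfl) (by decide +kernel)] at h
    exact not_lt.2 h key
  · have h1 : [5, 8] ∈ W 2 (finProdFinEquiv : Fin 4 × Fin 4 ≃ Fin (4 * 4)) := by
      unfold W; simp only [Set.mem_setOf_eq]; decide +kernel
    rw [← h 2 le_rfl] at h1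
    revert h1
    unfold W; simp only [Set.mem_setOf_eq]; decide +kernel

end Pool.Agent.Results.MP_407208_co.Swap
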